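import Pool.Agent.Y644.JW.Stm
import Pool.Agent.H660R3.TS.T_EUL

/-!
# Closed walk from a spanning tree and a perfect matching of the blow-up (task JW-EUL)
-/

set_option autoImplicit false

open scoped Classical

namespace Pool.Agent.Y591.JW

open Pool.Agent.H660R3.TS Pool.Agent.H660R3.TS.EUL Pool.Agent.Y644.JW

/-! ### counting along a list -/

section count

variable {V : Type}

/-- indicator -/
noncomputable def iw (w a : V) : ℕ := if a = w then 1 else 0

/-- number of ends of an edge equal to `w` -/
noncomputable def inc (w : V) : Sym2 V → ℕ :=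
  Sym2.lift ⟨fun a b => iw w a + iw w b, fun a b => add_comm _ _⟩

theorem inc_mk (w a b : V) : inc w s(a, b) = iw w a + iw w b := rfl

theorem count_cons_iw [DecidableEq V] (w a : V) (l : List V) :
    (a :: l).count w = iw w a + l.count w := by
  rw [List.count_cons, iw]
  by_cases h : a = w
  · simp [h, add_comm]
  · simp [h]

theorem steps_count [DecidableEq V] (w z : V) (l : List V) : ∀ a : V,
    (a :: l).getLast? = some z →
    ((steps (a :: l)).map (inc w)).sum + iw w a + iw w z = 2 * (a :: l).count w := by
  induction l with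
  | nil =>
    intro a h
    simp only [List.getLast?_singleton, Option.some.injEq] at h
    subst h
    rw [count_cons_iw]
    simp only [steps, Multiset.map_zero, Multiset.sum_zero, List.count_nil]
    ring
  | cons b l ih =>
    intro a h
    rw [List.getLast?_cons_cons] at h
    have h1 := ih b h
    rw [count_cons_iw]
    simp only [steps, Multiset.map_cons, Multiset.sum_cons, inc_mk]
    linarith

end count

/-! ### the rooted tree -/

section tree

variable {V : Type} {T : SimpleGraph V}

theorem down_unique (hT : T.IsTree) (r : V) {v u1 u2 : V} (h1 : T.Adj v u1) (h2 : T.Adj v u2)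
    (d1 : T.dist v r = T.dist u1 r + 1) (d2 : T.dist v r = T.dist u2 r + 1) : u1 = u2 := by
  obtain ⟨p1, hp1⟩ := hT.connected.exists_walk_length_eq_dist u1 r
  obtain ⟨p2, hp2⟩ := hT.connected.exists_walk_length_eq_dist u2 r
  have q1 : (SimpleGraph.Walk.cons h1 p1).IsPath :=
    SimpleGraph.Walk.isPath_of_length_eq_dist _ (by rw [SimpleGraph.Walk.length_cons, hp1, d1])
  have q2 : (SimpleGraph.Walk.cons h2 p2).IsPath :=
    SimpleGraph.Walk.isPath_of_length_eq_dist _ (by rw [SimpleGraph.Walk.length_cons, hp2, d2])
  have h := hT.isAcyclic.path_unique ⟨_, q1⟩ ⟨_, q2⟩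
  have h' : (SimpleGraph.Walk.cons h1 p1).snd = (SimpleGraph.Walk.cons h2 p2).snd := by
    rw [Subtype.mk.injEq] at h
    rw [h]
  simpa using h'

theorem down_exists (hT : T.IsTree) {r v : V} (hv : v ≠ r) :
    ∃ u, T.Adj v u ∧ T.dist v r = T.dist u r + 1 := by
  obtain ⟨p, hp⟩ := hT.connected.exists_walk_length_eq_dist v r
  cases p with
  | nil => exact absurd rfl hv
  | @cons _ u _ h p =>
    refine ⟨u, h, ?_⟩
    rw [SimpleGraph.Walk.length_cons] at hp
    have h1 : T.dist u r ≤ p.length := SimpleGraph.dist_le p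
    have h2 : T.dist v r ≤ T.dist u r + 1 := by
      have h3 := hT.connected.dist_triangle (u := v) (v := u) (w := r)
      rw [SimpleGraph.dist_eq_one_iff_adj.2 h] at h3
      omega
    omega

theorem exists_rtree (hT : T.IsTree) (r : V) : ∃ R : RTree V, R.root = r ∧
    ∀ a b, T.Adj a b ↔ (a ≠ r ∧ R.par a = b) ∨ (b ≠ r ∧ R.par b = a) := by
  have hex : ∀ v : V, ∃ u, (v = r → u = r) ∧ (v ≠ r → T.Adj v u ∧ T.dist v r = T.dist u r + 1) := by
    intro v
    by_cases hv : v = r
    · exact ⟨r, fun _ => rfl, fun h => absurd hv h⟩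
    · obtain ⟨u, hu⟩ := down_exists hT hv
      exact ⟨u, fun h => absurd h hv, fun _ => hu⟩
  choose par hpar1 hpar2 using hex
  refine ⟨⟨r, par, fun v => T.dist v r, hpar1 r rfl, fun v hv => ?_⟩, rfl, ?_⟩
  · have := (hpar2 v hv).2
    omega
  · intro a b
    change T.Adj a b ↔ (a ≠ r ∧ par a = b) ∨ (b ≠ r ∧ par b = a)
    constructor
    · intro h
      have h1 := hT.dist_ne_of_adj r h
      rw [SimpleGraph.dist_comm (u := r), SimpleGraph.dist_comm (u := r)] at h1
      have h2 : T.dist a r ≤ T.dist b r + 1 := by
        have h3 := hT.connected.dist_triangle (u := a) (v := b) (w := r)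
        rw [SimpleGraph.dist_eq_one_iff_adj.2 h] at h3
        omega
      have h4 : T.dist b r ≤ T.dist a r + 1 := by
        have h3 := hT.connected.dist_triangle (u := b) (v := a) (w := r)
        rw [SimpleGraph.dist_eq_one_iff_adj.2 h.symm] at h3
        omega
      rcases lt_or_gt_of_ne h1 with h5 | h5
      · right
        have hb : b ≠ r := by
          rintro rfl
          rw [SimpleGraph.dist_self] at h5
          omega
        exact ⟨hb, down_unique hT r (hpar2 b hb).1 h.symm (hpar2 b hb).2 (by omega)⟩
      · left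
        have ha : a ≠ r := by
          rintro rfl
          rw [SimpleGraph.dist_self] at h5
          omega
        exact ⟨ha, down_unique hT r (hpar2 a ha).1 h (hpar2 a ha).2 (by omega)⟩
    · rintro (⟨ha, rfl⟩ | ⟨hb, rfl⟩)
      · exact (hpar2 a ha).1
      · exact (hpar2 b hb).1.symm

theorem dg_eq [Fintype V] (R : RTree V)
    (hadj : ∀ a b, T.Adj a b ↔ (a ≠ R.root ∧ R.par a = b) ∨ (b ≠ R.root ∧ R.par b = a)) (w : V) :
    dg T w = ∑ u ∈ Finset.univ.erase R.root, (iw w u + iw w (R.par u)) := by
  have h1 : T.neighborSet w = ↑((Finset.univ.filter (fun b => w ≠ R.root ∧ R.par w = b)) ∪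
      (Finset.univ.filter (fun b => b ≠ R.root ∧ R.par b = w))) := by
    ext b
    rw [SimpleGraph.mem_neighborSet, hadj]
    simp
  have hdis : Disjoint (Finset.univ.filter (fun b => w ≠ R.root ∧ R.par w = b))
      (Finset.univ.filter (fun b => b ≠ R.root ∧ R.par b = w)) := by
    rw [Finset.disjoint_left]
    intro b hb hb'
    simp only [Finset.mem_filter, Finset.mem_univ, true_and] at hb hb'
    have h2 := R.rk_lt w hb.1
    have h3 := R.rk_lt b hb'.1
    rw [hb.2] at h2
    rw [hb'.2] at h3
    omega
  unfold dg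
  rw [h1, Set.ncard_coe_finset, Finset.card_union_of_disjoint hdis, Finset.sum_add_distrib]
  congr 1
  · by_cases hw : w = R.root
    · rw [Finset.filter_false_of_mem (fun b _ h => h.1 hw), Finset.card_empty]
      symm
      apply Finset.sum_eq_zero
      intro u hu
      rw [iw, if_neg]
      rintro rfl
      exact (Finset.mem_erase.1 hu).1 hw
    · have h2 : Finset.univ.filter (fun b => w ≠ R.root ∧ R.par w = b) = {R.par w} := by
        ext b
        simp only [Finset.mem_filter, Finset.mem_univ, true_and, Finset.mem_singleton]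
        exact ⟨fun h => h.2.symm, fun h => ⟨hw, h.symm⟩⟩
      rw [h2, Finset.card_singleton]
      simp only [iw]
      rw [Finset.sum_ite_eq' (Finset.univ.erase R.root) w (fun _ => 1)]
      rw [if_pos (Finset.mem_erase.2 ⟨hw, Finset.mem_univ _⟩)]
  · rw [Finset.card_filter]
    rw [← Finset.sum_erase (a := R.root) Finset.univ]
    · apply Finset.sum_congr rfl
      intro u hu
      have hu1 := (Finset.mem_erase.1 hu).1
      simp only [iw]
      by_cases h : R.par u = w
      · rw [if_pos ⟨hu1, h⟩, if_pos h]
      · rw [if_neg (fun h' => h h'.2), if_neg h]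
    · simp

/-- the parity identity along a subtree -/
theorem dg_parity [Fintype V] (R : RTree V)
    (hadj : ∀ a b, T.Adj a b ↔ (a ≠ R.root ∧ R.par a = b) ∨ (b ≠ R.root ∧ R.par b = a))
    {v : V} (hv : v ≠ R.root) :
    ∑ w, (dg T w : ZMod 2) * ind R v w = 1 := by
  have h1 : ∀ w, (dg T w : ZMod 2) * ind R v w = ∑ u ∈ Finset.univ.erase R.root,
      ((if u = w then ind R v w else 0) + (if R.par u = w then ind R v w else 0)) := by
    intro w
    rw [dg_eq R hadj w]
    push_cast
    rw [Finset.sum_mul]
    apply Finset.sum_congr rfl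
    intro u _
    rw [add_mul]
    congr 1
    · unfold iw
      split_ifs <;> simp
    · unfold iw
      split_ifs <;> simp
  rw [Finset.sum_congr rfl (fun w _ => h1 w), Finset.sum_comm]
  have h2 : ∀ u ∈ Finset.univ.erase R.root, ∑ w : V,
      ((if u = w then ind R v w else 0) + (if R.par u = w then ind R v w else 0)) =
      if u = v then (1 : ZMod 2) else 0 := by
    intro u hu
    rw [Finset.sum_add_distrib, Finset.sum_ite_eq, Finset.sum_ite_eq, if_pos (Finset.mem_univ _),
      if_pos (Finset.mem_univ _)]
    split_ifs with h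
    · subst h
      rw [ind_self, ind_par_self R hv, add_zero]
    · rw [ind_par R (fun h' => h h'.symm)]
      exact EUL.zz _
  rw [Finset.sum_congr rfl h2, Finset.sum_ite_eq', if_pos (Finset.mem_erase.2 ⟨hv, Finset.mem_univ _⟩)]

end tree

/-! ### the matching -/

section matching

variable {X : Type} [Fintype X] (μ : X → X)

/-- one representative of every pair -/
noncomputable def reps : Finset X :=
  Finset.univ.filter (fun x => Fintype.equivFin X x < Fintype.equivFin X (μ x))

theorem sum_reps {M : Type} [AddCommMonoid M] (h1 : ∀ x, μ (μ x) = x) (h2 : ∀ x, μ x ≠ x)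
    (g : X → M) : ∑ x ∈ reps μ, (g x + g (μ x)) = ∑ x, g x := by
  rw [Finset.sum_add_distrib]
  have h3 : ∑ x ∈ reps μ, g (μ x) = ∑ x ∈ (reps μ)ᶜ, g x := by
    apply Finset.sum_nbij' μ μ
    · intro x hx
      simp only [reps, Finset.mem_filter, Finset.mem_univ, true_and, Finset.mem_compl, h1] at hx ⊢
      exact not_lt.2 hx.le
    · intro x hx
      simp only [reps, Finset.mem_filter, Finset.mem_univ, true_and, Finset.mem_compl, h1] at hx ⊢
      refine lt_of_le_of_ne (not_lt.1 hx) ?_
      intro h
      exact h2 x ((Fintype.equivFin X).injective h)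
    · intro x _
      exact h1 x
    · intro x _
      exact h1 x
    · intro x _
      rfl
  rw [h3, Finset.sum_add_sum_compl]

end matching

theorem eul : S_EUL := by
  intro V _ inst _ G T k f hTG hT hdeg hμ
  obtain rfl : inst = fun a b => Classical.propDecidable (a = b) := Subsingleton.elim _ _
  obtain ⟨μ, h1, h2, h3⟩ := hμ
  obtain ⟨r⟩ : Nonempty V := inferInstance
  obtain ⟨R, hR, hadj⟩ := exists_rtree hT r
  subst hR
  set A : Finset (Σ v : V, Fin (f v)) := (reps μ).filter (fun x => x.1 ≠ (μ x).1) with hA
  set E : Multiset (Sym2 V) := A.val.map (fun x => s(x.1, (μ x).1)) with hE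
  -- parity
  have hpar : ∀ v ∈ (Finset.univ : Finset V), v ≠ R.root → (E.map (fv R v)).sum = 1 := by
    intro v _ hv
    rw [hE, Multiset.map_map]
    change ∑ x ∈ A, fv R v s(x.1, (μ x).1) = 1
    rw [hA, Finset.sum_filter]
    have h4 : ∀ x ∈ reps μ, (if x.1 ≠ (μ x).1 then fv R v s(x.1, (μ x).1) else 0) =
        ind R v x.1 + ind R v (μ x).1 := by
      intro x _
      split_ifs with h
      · rfl
      · rw [not_not.1 h]
        exact (EUL.zz _).symm
    rw [Finset.sum_congr rfl h4, sum_reps μ h1 h2 (fun x => ind R v x.1), Fintype.sum_sigma]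
    rw [← dg_parity R hadj hv]
    apply Finset.sum_congr rfl
    intro w _
    simp only [Finset.sum_const, Finset.card_univ, Fintype.card_fin, nsmul_eq_mul]
    congr 1
    have h5 : ((dg T w + f w : ℕ) : ZMod 2) = 0 := by
      rw [hdeg w]
      push_cast
      rw [two_mul]
      exact EUL.zz _
    push_cast at h5
    have h6 := EUL.zz ((dg T w : ℕ) : ZMod 2)
    have h7 : (f w : ZMod 2) = (dg T w : ZMod 2) + ((dg T w : ZMod 2) + (f w : ZMod 2)) := by
      rw [← add_assoc, h6, zero_add]
    rw [h7, h5, add_zero]
  obtain ⟨l, hl1, hl2, hl3⟩ := euler R _ Finset.univ E rfl (Finset.mem_univ _)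
    (fun v _ => Finset.mem_univ _) (fun e _ v _ => Finset.mem_univ _) hpar
  obtain ⟨l1, hl4⟩ : ∃ l1, l = R.root :: l1 := by
    cases l with
    | nil => simp at hl1
    | cons a l1 =>
      simp only [List.head?_cons, Option.some.injEq] at hl1
      exact ⟨l1, by rw [hl1]⟩
  subst hl4
  -- all steps are edges
  have hst : ∀ e ∈ steps (R.root :: l1), e ∈ G.edgeSet := by
    intro e he
    rw [hl3, Multiset.mem_add] at he
    rcases he with he | he
    · obtain ⟨x, hx, rfl⟩ := Multiset.mem_map.1 he
      have hx' := (Finset.mem_filter.1 (Finset.mem_def.2 hx)).2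
      rw [SimpleGraph.mem_edgeSet]
      rcases h3 x with h | h
      · exact absurd h.symm hx'
      · exact h
    · obtain ⟨x, hx, rfl⟩ := Multiset.mem_map.1 he
      have hx' := (Finset.mem_erase.1 (Finset.mem_def.2 hx)).1
      rw [SimpleGraph.mem_edgeSet]
      exact hTG ((hadj _ _).2 (Or.inl ⟨hx', rfl⟩))
  have hch : ∀ (l : List V), (∀ e ∈ steps l, e ∈ G.edgeSet) → l.IsChain G.Adj := by
    intro l
    induction l with
    | nil => intro _; exact List.IsChain.nil
    | cons a l ih =>
      cases l with
      | nil => intro _; exact List.IsChain.singleton a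
      | cons b l =>
        intro h
        rw [List.isChain_cons_cons]
        refine ⟨?_, ih (fun e he => h e ?_)⟩
        · rw [← SimpleGraph.mem_edgeSet]
          exact h _ (Multiset.mem_cons_self _ _)
        · exact Multiset.mem_cons_of_mem he
  have hne : (R.root :: l1) ≠ [] := List.cons_ne_nil _ _
  have hend : (R.root :: l1).getLast hne = R.root := by
    rw [List.getLast?_eq_getLast_of_ne_nil hne] at hl2
    exact Option.some.inj hl2
  refine ⟨R.root, (SimpleGraph.Walk.ofSupport (R.root :: l1) hne (hch _ hst)).copy rfl hend, ?_⟩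
  intro w
  rw [SimpleGraph.Walk.support_copy, SimpleGraph.Walk.support_ofSupport, List.tail_cons]
  have hc := steps_count w R.root l1 R.root hl2
  rw [count_cons_iw, hl3, Multiset.map_add, Multiset.sum_add] at hc
  have ht : ((((Finset.univ : Finset V).erase R.root).val.map
      fun v => s(v, R.par v)).map (inc w)).sum = dg T w := by
    rw [Multiset.map_map, dg_eq R hadj w]
    rfl
  rw [ht] at hc
  have hm : (E.map (inc w)).sum ≤ f w := by
    rw [hE, Multiset.map_map]
    change ∑ x ∈ A, inc w s(x.1, (μ x).1) ≤ f w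
    calc ∑ x ∈ A, inc w s(x.1, (μ x).1) ≤ ∑ x ∈ reps μ, inc w s(x.1, (μ x).1) :=
          Finset.sum_le_sum_of_subset (Finset.filter_subset _ _)
      _ = ∑ x ∈ reps μ, (iw w x.1 + iw w (μ x).1) := rfl
      _ = ∑ x : (Σ v : V, Fin (f v)), iw w x.1 := sum_reps μ h1 h2 (fun x => iw w x.1)
      _ = f w := by
          rw [Fintype.sum_sigma]
          have h6 : ∀ x : V, (∑ _y : Fin (f x), iw w x) = if x = w then f w else 0 := by
            intro x
            rw [Finset.sum_const, Finset.card_univ, Fintype.card_fin, smul_eq_mul, iw]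
            split_ifs with h
            · rw [h, mul_one]
            · rw [mul_zero]
          rw [Finset.sum_congr rfl (fun x _ => h6 x), Finset.sum_ite_eq',
            if_pos (Finset.mem_univ _)]
  have hpos : 1 ≤ dg T w := by
    have h5 := hT.connected.preconnected.degree_pos_of_nontrivial w
    rw [← SimpleGraph.card_neighborSet_eq_degree, ← Nat.card_eq_fintype_card] at h5
    exact h5
  have hk := hdeg w
  constructor <;> omega

end Pool.Agent.Y591.JW
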